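import Pool.Agent.T2H65.FF.Nak

/-!
# Crossed homomorphisms and their universal module
-/

set_option autoImplicit false

namespace Pool.Agent.T2H65.FF

section module

variable {N A : Type} [Group N] [CommRing A] (χ : N →* A) (s₀ : N)

/-- the relations -/
noncomputable def relS : Submodule A (N →₀ A) := Submodule.span A
  (insert (Finsupp.single s₀ 1) {x | ∃ a b : N, x = Finsupp.single (a * b) 1 -
    Finsupp.single a 1 - χ a • Finsupp.single b 1})

/-- the universal module for crossed homomorphisms which vanish at `s₀` -/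
abbrev Cr : Type := (N →₀ A) ⧸ relS χ s₀

/-- the universal crossed homomorphism -/
noncomputable def dd (n : N) : Cr χ s₀ := Submodule.Quotient.mk (Finsupp.single n 1)

theorem dd_s₀ : dd χ s₀ s₀ = 0 :=
  (Submodule.Quotient.mk_eq_zero _).2 (Submodule.subset_span (Set.mem_insert _ _))

theorem dd_mul (a b : N) : dd χ s₀ (a * b) = dd χ s₀ a + χ a • dd χ s₀ b := by
  have h1 : (Submodule.Quotient.mk (Finsupp.single (a * b) 1 -
    Finsupp.single a 1 - χ a • Finsupp.single b 1) : Cr χ s₀) = 0 :=
    (Submodule.Quotient.mk_eq_zero _).2 (Submodule.subset_span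
      (Set.mem_insert_of_mem _ ⟨a, b, rfl⟩))
  rw [Submodule.Quotient.mk_sub, Submodule.Quotient.mk_sub, Submodule.Quotient.mk_smul,
    sub_sub, sub_eq_zero] at h1
  exact h1

theorem dd_one : dd χ s₀ 1 = 0 := by
  have h := dd_mul χ s₀ 1 1
  rw [mul_one, map_one, one_smul, left_eq_add] at h
  exact h

theorem dd_inv (a : N) : dd χ s₀ a⁻¹ = -(χ a⁻¹ • dd χ s₀ a) := by
  have h := dd_mul χ s₀ a⁻¹ a
  rw [inv_mul_cancel, dd_one] at h
  exact (neg_eq_of_add_eq_zero_left h.symm).symm

theorem Cr_fin [hN : Group.FG N] : Module.Finite A (Cr χ s₀) := by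
  obtain ⟨S, hS⟩ := hN.out
  have h1 : ∀ n : N, dd χ s₀ n ∈ Submodule.span A (dd χ s₀ '' (S : Set N)) := by
    intro n
    have hn : n ∈ Subgroup.closure (S : Set N) := by rw [hS]; trivial
    induction hn using Subgroup.closure_induction with
    | mem x hx => exact Submodule.subset_span ⟨x, hx, rfl⟩
    | one => rw [dd_one]; exact zero_mem _
    | mul x y _ _ hx hy =>
      rw [dd_mul]
      exact add_mem hx (Submodule.smul_mem _ _ hy)
    | inv x _ hx =>
      rw [dd_inv]
      exact neg_mem (Submodule.smul_mem _ _ hx)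
  have h2 : Submodule.span A (dd χ s₀ '' (S : Set N)) = ⊤ := by
    rw [eq_top_iff]
    rintro x -
    obtain ⟨y, rfl⟩ := Submodule.Quotient.mk_surjective _ x
    induction y using Finsupp.induction_linear with
    | zero => exact zero_mem _
    | add f g hf hg =>
      rw [Submodule.Quotient.mk_add]
      exact add_mem hf hg
    | single n a =>
      have h3 : (Submodule.Quotient.mk (Finsupp.single n a) : Cr χ s₀) = a • dd χ s₀ n := by
        rw [dd, ← Submodule.Quotient.mk_smul, Finsupp.smul_single, smul_eq_mul, mul_one]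
      rw [h3]
      exact Submodule.smul_mem _ _ (h1 n)
  classical
  exact ⟨⟨(S.image (dd χ s₀)), by rw [Finset.coe_image, h2]⟩⟩

/-- crossed homomorphisms -/
def IsCr {K : Type} [CommRing K] (ρ : N →* K) (z : N → K) : Prop :=
  ∀ a b, z (a * b) = z a + ρ a * z b

/-- the annihilator of the universal module -/
theorem ann_le {D : Type} [CommRing D] [IsDomain D] (φ : A →+* D) {z : N → D}
    (hz : ∀ a b, z (a * b) = z a + φ (χ a) * z b) (h0 : z s₀ = 0) {n : N} (hn : z n ≠ 0) (a : A)
    (ha : ∀ m : Cr χ s₀, a • m = 0) : φ a = 0 := by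
  obtain ⟨F, hF⟩ : ∃ F : (N →₀ A) →+ D, F = Finsupp.liftAddHom
    (fun n => (AddMonoidHom.mulRight (z n)).comp φ.toAddMonoidHom) := ⟨_, rfl⟩
  have hF1 : ∀ n c, F (Finsupp.single n c) = φ c * z n := by
    intro n c
    rw [hF, Finsupp.liftAddHom_apply_single]
    rfl
  have hF2 : ∀ (c : A) (x : N →₀ A), F (c • x) = φ c * F x := by
    intro c x
    induction x using Finsupp.induction_linear with
    | zero => rw [smul_zero, map_zero, mul_zero]
    | add f g hf hg => rw [smul_add, map_add, map_add, hf, hg, mul_add]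
    | single n d => rw [Finsupp.smul_single, hF1, hF1, smul_eq_mul, map_mul, mul_assoc]
  have hF3 : ∀ x ∈ relS χ s₀, F x = 0 := by
    intro x hx
    induction hx using Submodule.span_induction with
    | mem x hx =>
      rcases hx with rfl | ⟨a, b, rfl⟩
      · rw [hF1, h0, mul_zero]
      · rw [map_sub, map_sub, hF2, hF1, hF1, hF1, hz, map_one]
        ring
    | zero => exact map_zero _
    | add x y _ _ hx hy => rw [map_add, hx, hy, add_zero]
    | smul c x _ hx => rw [hF2, hx, mul_zero]
  have h1 : Finsupp.single n a ∈ relS χ s₀ := by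
    rw [← Submodule.Quotient.mk_eq_zero]
    have h2 := ha (dd χ s₀ n)
    rw [dd, ← Submodule.Quotient.mk_smul, Finsupp.smul_single, smul_eq_mul, mul_one] at h2
    exact h2
  have h2 := hF3 _ h1
  rw [hF1] at h2
  exact (mul_eq_zero.1 h2).resolve_right hn

/-- existence of crossed homomorphisms -/
theorem exists_cr [Group.FG N] {K : Type} [Field K] (φ : A →+* K)
    (h : ∀ a : A, (∀ m : Cr χ s₀, a • m = 0) → φ a = 0) :
    ∃ z : N → K, (∀ a b, z (a * b) = z a + φ (χ a) * z b) ∧ z s₀ = 0 ∧ ∃ n, z n ≠ 0 := by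
  have := Cr_fin χ s₀
  obtain ⟨f, hf, m, hm⟩ := exists_functional φ h
  refine ⟨fun n => f (dd χ s₀ n), fun a b => ?_, ?_, ?_⟩
  · show f (dd χ s₀ (a * b)) = _
    rw [dd_mul, map_add, hf]
  · show f (dd χ s₀ s₀) = 0
    rw [dd_s₀, map_zero]
  · by_contra hc
    push Not at hc
    apply hm
    obtain ⟨y, rfl⟩ := Submodule.Quotient.mk_surjective _ m
    clear hm
    induction y using Finsupp.induction_linear with
    | zero => rw [Submodule.Quotient.mk_zero, map_zero]
    | add f g hf hg => rw [Submodule.Quotient.mk_add, map_add, hf, hg, add_zero]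
    | single n a =>
      have h3 : (Submodule.Quotient.mk (Finsupp.single n a) : Cr χ s₀) = a • dd χ s₀ n := by
        rw [dd, ← Submodule.Quotient.mk_smul, Finsupp.smul_single, smul_eq_mul, mul_one]
      rw [h3, hf]
      have h4 : f (dd χ s₀ n) = 0 := hc n
      rw [h4, mul_zero]

end module

section partition

variable {H : Type} [CommGroup H]

/-- the homomorphism of group rings -/
noncomputable def gr {H L : Type} [CommGroup H] [CommGroup L] (e : H →* L) :
    MonoidAlgebra ℚ H →+* MonoidAlgebra ℚ L := MonoidAlgebra.mapDomainRingHom ℚ e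

open Classical in
theorem gr_apply {H L : Type} [CommGroup H] [CommGroup L] (e : H →* L) (f : MonoidAlgebra ℚ H)
    (c : L) : (gr e f).coeff c = ∑ h ∈ f.coeff.support, if e h = c then f.coeff h else 0 := by
  show (Finsupp.mapDomain e f.coeff) c = _
  rw [Finsupp.mapDomain, Finsupp.sum_apply, Finsupp.sum]
  refine Finset.sum_congr rfl fun h _ => ?_
  rw [Finsupp.single_apply]

theorem gr_single {H L : Type} [CommGroup H] [CommGroup L] (e : H →* L) (h : H) (r : ℚ) :
    gr e (MonoidAlgebra.single h r) = MonoidAlgebra.single (e h) r :=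
  MonoidAlgebra.mapDomain_single

/-- comparison of the values of two characters -/
theorem gr_prod {L₁ L₂ : Type} [CommGroup L₁] [CommGroup L₂] (e₁ : H →* L₁) (e₂ : H →* L₂)
    (f : MonoidAlgebra ℚ H) (h0 : gr e₁ f = 0)
    (h : ∀ x ∈ f.coeff.support, ∀ y ∈ f.coeff.support, e₁ x = e₁ y → e₂ x = e₂ y) :
    gr (e₁.prod e₂) f = 0 := by
  classical
  apply MonoidAlgebra.ext
  ext ⟨a, b⟩
  rw [gr_apply]
  by_cases hc : ∃ x ∈ f.coeff.support, e₁ x = a ∧ e₂ x = b
  · obtain ⟨x, hx, rfl, rfl⟩ := hc
    have h1 : (gr e₁ f).coeff (e₁ x) = 0 := by rw [h0]; rfl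
    rw [gr_apply] at h1
    refine Eq.trans ?_ h1
    refine Finset.sum_congr rfl fun y hy => ?_
    have h2 : (e₁.prod e₂) y = (e₁ x, e₂ x) ↔ e₁ y = e₁ x := by
      rw [MonoidHom.prod_apply, Prod.mk.injEq]
      exact ⟨fun h => h.1, fun h3 => ⟨h3, h y hy x hx h3⟩⟩
    simp only [h2]
  · push Not at hc
    refine Finset.sum_eq_zero fun y hy => ?_
    rw [if_neg]
    intro h1
    rw [MonoidHom.prod_apply, Prod.mk.injEq] at h1
    exact hc y hy h1.1 h1.2

end partition

end Pool.Agent.T2H65.FF
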