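import Mathlib

/-!
# Crossed homomorphisms on free groups, and finitely generated normal subgroups of free groups
-/

set_option autoImplicit false

namespace Pool.Agent.T2H65.FF

section aff

variable {F W : Type} [Group F] [AddCommGroup W]

/-- the affine group -/
@[ext] structure Aff (a : F →* AddMonoid.End W) where
  /-- translation part -/
  w : W
  /-- linear part -/
  g : F

variable (a : F →* AddMonoid.End W)

instance : Mul (Aff a) := ⟨fun x y => ⟨x.w + a x.g y.w, x.g * y.g⟩⟩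
instance : One (Aff a) := ⟨⟨0, 1⟩⟩
instance : Inv (Aff a) := ⟨fun x => ⟨-(a x.g⁻¹ x.w), x.g⁻¹⟩⟩

instance : Group (Aff a) := Group.ofLeftAxioms
  (by
    intro x y z
    apply Aff.ext
    · show x.w + a x.g y.w + a (x.g * y.g) z.w = x.w + a x.g (y.w + a y.g z.w)
      rw [map_mul, map_add, add_assoc]
      rfl
    · exact mul_assoc _ _ _)
  (by
    intro x
    apply Aff.ext
    · show 0 + a 1 x.w = x.w
      rw [map_one, zero_add]
      rfl
    · exact one_mul _)
  (by
    intro x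
    apply Aff.ext
    · show -(a x.g⁻¹ x.w) + a x.g⁻¹ x.w = 0
      rw [neg_add_cancel]
    · exact inv_mul_cancel _)

end aff

/-- crossed homomorphisms on free groups -/
theorem exists_crossed {X W : Type} [AddCommGroup W] (a : FreeGroup X →* AddMonoid.End W)
    (d : X → W) : ∃ z : FreeGroup X → W, (∀ g h, z (g * h) = z g + a g (z h)) ∧
      ∀ x, z (FreeGroup.of x) = d x := by
  obtain ⟨f, hf⟩ : ∃ f : FreeGroup X →* Aff a, ∀ x, f (FreeGroup.of x) = ⟨d x, FreeGroup.of x⟩ :=
    ⟨FreeGroup.lift fun x => ⟨d x, FreeGroup.of x⟩, fun x => FreeGroup.lift_apply_of⟩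
  obtain ⟨p, hp⟩ : ∃ p : Aff a →* FreeGroup X, ∀ x, p x = x.g :=
    ⟨{ toFun := fun x => x.g, map_one' := rfl, map_mul' := fun _ _ => rfl }, fun _ => rfl⟩
  have h1 : ∀ g, (f g).g = g := by
    intro g
    rw [← hp]
    have h2 : p.comp f = MonoidHom.id _ := FreeGroup.ext_hom _ _ fun x => by
      rw [MonoidHom.comp_apply, hf, hp]
      rfl
    exact DFunLike.congr_fun h2 g
  refine ⟨fun g => (f g).w, fun g h => ?_, fun x => ?_⟩
  · show (f (g * h)).w = (f g).w + a g (f h).w
    rw [map_mul]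
    show (f g).w + a (f g).g (f h).w = _
    rw [h1]
  · show (f (FreeGroup.of x)).w = d x
    rw [hf]

section fox

variable {X : Type} (M : Subgroup (FreeGroup X)) [hMn : M.Normal]

/-- translations -/
def trl : FreeGroup X →* AddMonoid.End ((FreeGroup X ⧸ M) → X → ℤ) where
  toFun g := { toFun := fun f q => f ((g : FreeGroup X ⧸ M)⁻¹ * q)
               map_zero' := rfl
               map_add' := fun _ _ => rfl }
  map_one' := by
    ext f q x
    show f ((((1 : FreeGroup X) : FreeGroup X ⧸ M))⁻¹ * q) x = f q x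
    rw [QuotientGroup.mk_one, inv_one, one_mul]
  map_mul' g h := by
    ext f q x
    show f (((g * h : FreeGroup X) : FreeGroup X ⧸ M)⁻¹ * q) x =
      f ((h : FreeGroup X ⧸ M)⁻¹ * ((g : FreeGroup X ⧸ M)⁻¹ * q)) x
    rw [QuotientGroup.mk_mul, mul_inv_rev, mul_assoc]

theorem trl_apply (g : FreeGroup X) (f : (FreeGroup X ⧸ M) → X → ℤ) (q : FreeGroup X ⧸ M) :
    trl M g f q = f ((g : FreeGroup X ⧸ M)⁻¹ * q) := rfl

open Classical in
/-- the Fox derivatives -/
theorem exists_fox : ∃ D : FreeGroup X → (FreeGroup X ⧸ M) → X → ℤ,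
    (∀ g h q, D (g * h) q = D g q + D h ((g : FreeGroup X ⧸ M)⁻¹ * q)) ∧
    ∀ x q y, D (FreeGroup.of x) q y = if q = 1 ∧ y = x then 1 else 0 := by
  obtain ⟨D, h1, h2⟩ := exists_crossed (trl M) fun x q y => if q = 1 ∧ y = x then 1 else 0
  refine ⟨D, fun g h q => ?_, fun x q y => by rw [h2]⟩
  rw [h1]
  rfl

variable {M} {D : FreeGroup X → (FreeGroup X ⧸ M) → X → ℤ}
  (hD : ∀ g h q, D (g * h) q = D g q + D h ((g : FreeGroup X ⧸ M)⁻¹ * q))

include hD in
theorem D_one (q : FreeGroup X ⧸ M) : D 1 q = 0 := by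
  have h := hD 1 1 q
  rw [mul_one, QuotientGroup.mk_one, inv_one, one_mul, left_eq_add] at h
  exact h

include hD in
theorem D_inv (g : FreeGroup X) (q : FreeGroup X ⧸ M) :
    D g⁻¹ q = -D g ((g : FreeGroup X ⧸ M) * q) := by
  have h := hD g⁻¹ g q
  rw [inv_mul_cancel, D_one hD, QuotientGroup.mk_inv, inv_inv] at h
  exact (neg_eq_of_add_eq_zero_left h.symm).symm

include hD in
theorem D_mem {m : FreeGroup X} (hm : m ∈ M) (h : FreeGroup X) (q : FreeGroup X ⧸ M) :
    D (m * h) q = D m q + D h q := by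
  rw [hD, (QuotientGroup.eq_one_iff m).2 hm, inv_one, one_mul]

include hD in
theorem D_conj {m : FreeGroup X} (hm : m ∈ M) (g : FreeGroup X) (q : FreeGroup X ⧸ M) :
    D (g * m * g⁻¹) q = D m ((g : FreeGroup X ⧸ M)⁻¹ * q) := by
  rw [hD, hD, D_inv hD, QuotientGroup.mk_mul, (QuotientGroup.eq_one_iff m).2 hm, mul_one,
    mul_inv_cancel_left]
  ring

open Classical in
theorem D_supp (h1 : ∀ x q y, D (FreeGroup.of x) q y = if q = 1 ∧ y = x then 1 else 0)
    (hD : ∀ g h q, D (g * h) q = D g q + D h ((g : FreeGroup X ⧸ M)⁻¹ * q)) (g : FreeGroup X) :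
    {q | D g q ≠ 0}.Finite := by
  have hx : ∀ x, {q | D (FreeGroup.of x) q ≠ 0}.Finite := by
    intro x
    refine (Set.finite_singleton 1).subset fun q hq => ?_
    by_contra hc
    apply hq
    funext y
    rw [h1, if_neg]
    · rfl
    · exact fun h => hc h.1
  have hi : ∀ g, {q | D g q ≠ 0}.Finite → {q | D g⁻¹ q ≠ 0}.Finite := by
    intro g hg
    refine (hg.image fun q => (g : FreeGroup X ⧸ M)⁻¹ * q).subset fun q hq => ?_
    refine ⟨(g : FreeGroup X ⧸ M) * q, ?_, inv_mul_cancel_left _ _⟩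
    intro h
    apply hq
    rw [D_inv hD, h, neg_zero]
  induction g using FreeGroup.induction_on with
  | C1 =>
    convert Set.finite_empty
    ext q
    simp [D_one hD]
  | of x => exact hx x
  | inv_of x _ => exact hi _ (hx x)
  | mul g h hg hh =>
    refine (hg.union (hh.image fun q => (g : FreeGroup X ⧸ M) * q)).subset fun q hq => ?_
    by_cases h3 : D g q = 0
    · right
      refine ⟨(g : FreeGroup X ⧸ M)⁻¹ * q, ?_, mul_inv_cancel_left _ _⟩
      intro h4
      apply hq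
      rw [hD, h3, h4, add_zero]
    · exact Or.inl h3

/-- the quotient by a finitely generated normal subgroup is finite, if some derivative does not
vanish -/
theorem fin_of_ne (hM : M.FG) (h1 : ∀ g, {q | D g q ≠ 0}.Finite)
    (hD : ∀ g h q, D (g * h) q = D g q + D h ((g : FreeGroup X ⧸ M)⁻¹ * q)) {m : FreeGroup X}
    (hm : m ∈ M) {q₀ : FreeGroup X ⧸ M} (hq₀ : D m q₀ ≠ 0) : Finite (FreeGroup X ⧸ M) := by
  obtain ⟨S, hS⟩ := hM
  obtain ⟨T, hT, hT'⟩ : ∃ T : Set (FreeGroup X ⧸ M), T.Finite ∧ ∀ m ∈ M, ∀ q, D m q ≠ 0 → q ∈ T := by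
    refine ⟨⋃ s ∈ S, {q | D s q ≠ 0}, S.finite_toSet.biUnion fun s _ => h1 s, ?_⟩
    intro m hm
    rw [← hS] at hm
    induction hm using Subgroup.closure_induction with
    | mem x hx => exact fun q hq => Set.mem_biUnion hx hq
    | one => exact fun q hq => absurd (D_one hD q) hq
    | mul x y hx hy ihx ihy =>
      intro q hq
      rw [hS] at hx
      by_cases h3 : D x q = 0
      · apply ihy
        intro h4
        apply hq
        rw [D_mem hD hx, h3, h4, add_zero]
      · exact ihx q h3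
    | inv x hx ihx =>
      intro q hq
      rw [hS] at hx
      apply ihx
      intro h4
      apply hq
      rw [D_inv hD, (QuotientGroup.eq_one_iff x).2 hx, one_mul, h4, neg_zero]
  have h2 : ∀ q : FreeGroup X ⧸ M, q * q₀ ∈ T := by
    intro q
    obtain ⟨g, rfl⟩ := QuotientGroup.mk_surjective q
    apply hT' _ (hMn.conj_mem m hm g)
    rw [D_conj hD hm, inv_mul_cancel_left]
    exact hq₀
  have := hT.to_subtype
  exact Finite.of_injective (fun q : FreeGroup X ⧸ M => (⟨q * q₀, h2 q⟩ : T))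
    fun q r h => mul_right_cancel (congrArg Subtype.val h)

/-- nonnegativity -/
theorem D_nonneg (h1 : ∀ x q y, (q = 1 ∧ y = x → D (FreeGroup.of x) q y = 1) ∧
      (¬ (q = 1 ∧ y = x) → D (FreeGroup.of x) q y = 0))
    (hD : ∀ g h q, D (g * h) q = D g q + D h ((g : FreeGroup X ⧸ M)⁻¹ * q)) (y : X) :
    ∀ (L : List (X × Bool)) (q : FreeGroup X ⧸ M),
      (∀ L₁ L₂, L = L₁ ++ (y, false) :: L₂ →
        ((FreeGroup.mk (L₁ ++ [(y, false)]) : FreeGroup X) : FreeGroup X ⧸ M) ≠ q) →
      0 ≤ D (FreeGroup.mk L) q y := by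
  intro L
  induction L with
  | nil =>
    intro q _
    rw [← FreeGroup.one_eq_mk, D_one hD]
    rfl
  | cons c L ih =>
    intro q hq
    obtain ⟨x, b⟩ := c
    have h2 : (FreeGroup.mk ((x, b) :: L) : FreeGroup X) =
        FreeGroup.mk [(x, b)] * FreeGroup.mk L := by
      rw [FreeGroup.mul_mk]
      rfl
    have h3 : 0 ≤ D (FreeGroup.mk L) (((FreeGroup.mk [(x, b)] : FreeGroup X) :
        FreeGroup X ⧸ M)⁻¹ * q) y := by
      apply ih
      intro L₁ L₂ hL h4
      apply hq ((x, b) :: L₁) L₂ (by rw [hL]; rfl)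
      have h5 : (FreeGroup.mk ((x, b) :: L₁ ++ [(y, false)]) : FreeGroup X) =
          FreeGroup.mk [(x, b)] * FreeGroup.mk (L₁ ++ [(y, false)]) := by
        rw [FreeGroup.mul_mk]
        rfl
      rw [h5, QuotientGroup.mk_mul, h4, mul_inv_cancel_left]
    rw [h2, hD]
    show 0 ≤ D (FreeGroup.mk [(x, b)]) q y + _
    refine add_nonneg ?_ h3
    cases b with
    | true =>
      show 0 ≤ D (FreeGroup.of x) q y
      by_cases h : q = 1 ∧ y = x
      · rw [(h1 x q y).1 h]
        exact zero_le_one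
      · rw [(h1 x q y).2 h]
    | false =>
      have h6 : (FreeGroup.mk [(x, false)] : FreeGroup X) = (FreeGroup.of x)⁻¹ := by
        rw [FreeGroup.of, FreeGroup.inv_mk]
        rfl
      rw [h6, D_inv hD]
      show 0 ≤ -D (FreeGroup.of x) _ y
      by_cases h : ((FreeGroup.of x : FreeGroup X) : FreeGroup X ⧸ M) * q = 1 ∧ y = x
      · exfalso
        obtain ⟨h7, rfl⟩ := h
        apply hq [] L rfl
        rw [List.nil_append, h6, QuotientGroup.mk_inv]
        exact (eq_inv_of_mul_eq_one_right h7).symm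
      · rw [(h1 x _ y).2 h, neg_zero]

/-- nonpositivity -/
theorem D_nonpos (h1 : ∀ x q y, (q = 1 ∧ y = x → D (FreeGroup.of x) q y = 1) ∧
      (¬ (q = 1 ∧ y = x) → D (FreeGroup.of x) q y = 0))
    (hD : ∀ g h q, D (g * h) q = D g q + D h ((g : FreeGroup X ⧸ M)⁻¹ * q)) (y : X) :
    ∀ (L : List (X × Bool)) (q : FreeGroup X ⧸ M),
      (∀ L₁ L₂, L = L₁ ++ (y, true) :: L₂ →
        ((FreeGroup.mk L₁ : FreeGroup X) : FreeGroup X ⧸ M) ≠ q) →
      D (FreeGroup.mk L) q y ≤ 0 := by
  intro L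
  induction L with
  | nil =>
    intro q _
    rw [← FreeGroup.one_eq_mk, D_one hD]
    rfl
  | cons c L ih =>
    intro q hq
    obtain ⟨x, b⟩ := c
    have h2 : (FreeGroup.mk ((x, b) :: L) : FreeGroup X) =
        FreeGroup.mk [(x, b)] * FreeGroup.mk L := by
      rw [FreeGroup.mul_mk]
      rfl
    have h3 : D (FreeGroup.mk L) (((FreeGroup.mk [(x, b)] : FreeGroup X) :
        FreeGroup X ⧸ M)⁻¹ * q) y ≤ 0 := by
      apply ih
      intro L₁ L₂ hL h4
      apply hq ((x, b) :: L₁) L₂ (by rw [hL]; rfl)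
      have h5 : (FreeGroup.mk ((x, b) :: L₁) : FreeGroup X) =
          FreeGroup.mk [(x, b)] * FreeGroup.mk L₁ := by
        rw [FreeGroup.mul_mk]
        rfl
      rw [h5, QuotientGroup.mk_mul, h4, mul_inv_cancel_left]
    rw [h2, hD]
    show D (FreeGroup.mk [(x, b)]) q y + _ ≤ 0
    refine add_nonpos ?_ h3
    cases b with
    | true =>
      show D (FreeGroup.of x) q y ≤ 0
      by_cases h : q = 1 ∧ y = x
      · exfalso
        obtain ⟨rfl, rfl⟩ := h
        apply hq [] L rfl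
        rw [← FreeGroup.one_eq_mk, QuotientGroup.mk_one]
      · rw [(h1 x q y).2 h]
    | false =>
      have h6 : (FreeGroup.mk [(x, false)] : FreeGroup X) = (FreeGroup.of x)⁻¹ := by
        rw [FreeGroup.of, FreeGroup.inv_mk]
        rfl
      rw [h6, D_inv hD]
      show -D (FreeGroup.of x) _ y ≤ 0
      by_cases h : ((FreeGroup.of x : FreeGroup X) : FreeGroup X ⧸ M) * q = 1 ∧ y = x
      · rw [(h1 x _ y).1 h]
        norm_num
      · rw [(h1 x _ y).2 h, neg_zero]

theorem red_sub {a : X × Bool} {L L' : List (X × Bool)}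
    (h : FreeGroup.IsReduced (a :: (L ++ L'))) : FreeGroup.IsReduced L :=
  (List.isChain_append.1 (List.IsChain.tail h)).1

/-- **finitely generated normal subgroups of free groups** -/
theorem fg_normal (hM : M.FG) (hne : M ≠ ⊥) : Finite (FreeGroup X ⧸ M) := by
  classical
  obtain ⟨D, hD, h1⟩ := exists_fox M
  have h1' : ∀ x q y, (q = 1 ∧ y = x → D (FreeGroup.of x) q y = 1) ∧
      (¬ (q = 1 ∧ y = x) → D (FreeGroup.of x) q y = 0) := fun x q y =>
    ⟨fun h => by rw [h1, if_pos h], fun h => by rw [h1, if_neg h]⟩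
  suffices h : ∃ m ∈ M, ∃ q, D m q ≠ 0 by
    obtain ⟨m, hm, q, hq⟩ := h
    exact fin_of_ne hM (D_supp h1 hD) hD hm hq
  -- a shortest element
  have hex : ∃ n : ℕ, ∃ m ∈ M, m ≠ 1 ∧ m.toWord.length = n := by
    obtain ⟨m, hm⟩ := Subgroup.ne_bot_iff_exists_ne_one.1 hne
    exact ⟨_, m, m.2, fun h' => hm (Subtype.ext h'), rfl⟩
  obtain ⟨m, hm, hm1, hml⟩ := Nat.find_spec hex
  have hmin : ∀ L : List (X × Bool), FreeGroup.IsReduced L → L ≠ [] →
      L.length < m.toWord.length → (FreeGroup.mk L : FreeGroup X) ∉ M := by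
    intro L hL hL0 hlt hmem
    have h2 : (FreeGroup.mk L : FreeGroup X).toWord = L := by
      rw [FreeGroup.toWord_mk, hL.reduce_eq]
    refine Nat.find_min hex (m := L.length) (by rw [← hml]; exact hlt) ⟨_, hmem, ?_, by rw [h2]⟩
    intro h3
    rw [h3, FreeGroup.toWord_one] at h2
    exact hL0 h2.symm
  have hred : FreeGroup.IsReduced m.toWord := FreeGroup.isReduced_toWord
  have hmw : FreeGroup.mk m.toWord = m := FreeGroup.mk_toWord
  obtain ⟨w, hw⟩ : ∃ w, w = m.toWord := ⟨_, rfl⟩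
  rw [← hw] at hmin hred hmw
  refine ⟨m, hm, ?_⟩
  rcases w with _ | ⟨⟨x, b⟩, L⟩
  · exfalso
    apply hm1
    rw [← hmw]
    rfl
  have h2 : m = FreeGroup.mk [(x, b)] * FreeGroup.mk L := by
    rw [← hmw, FreeGroup.mul_mk]
    rfl
  cases b with
  | true =>
    refine ⟨1, fun h0 => ?_⟩
    have h3 : D m 1 x = 1 + D (FreeGroup.mk L) (((FreeGroup.of x : FreeGroup X) :
        FreeGroup X ⧸ M)⁻¹ * 1) x := by
      rw [h2, hD]
      show D (FreeGroup.of x) 1 x + _ = _
      rw [(h1' x 1 x).1 ⟨rfl, rfl⟩]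
      rfl
    have h4 : 0 ≤ D (FreeGroup.mk L) (((FreeGroup.of x : FreeGroup X) :
        FreeGroup X ⧸ M)⁻¹ * 1) x := by
      apply D_nonneg h1' hD
      intro L₁ L₂ hL h5
      rw [mul_one] at h5
      have h6 : (FreeGroup.of x * FreeGroup.mk (L₁ ++ [(x, false)]) : FreeGroup X) ∈ M := by
        rw [← QuotientGroup.eq_one_iff, QuotientGroup.mk_mul, h5, mul_inv_cancel]
      have h7 : L₁ ≠ [] := by
        rintro rfl
        rw [hL, List.nil_append] at hred
        have := hred.rel rfl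
        simp at this
      have h8 : FreeGroup.IsReduced L₁ := by
        rw [hL] at hred
        exact red_sub hred
      have h9 : (FreeGroup.mk L₁ : FreeGroup X) ∈ M := by
        have h10 := hMn.conj_mem _ h6 (FreeGroup.of x)⁻¹
        have h11 : (FreeGroup.mk (L₁ ++ [(x, false)]) : FreeGroup X) =
            FreeGroup.mk L₁ * (FreeGroup.of x)⁻¹ := by
          rw [FreeGroup.of, FreeGroup.inv_mk, FreeGroup.mul_mk]
          rfl
        rw [h11] at h10
        have h12 : (FreeGroup.of x)⁻¹ * (FreeGroup.of x * (FreeGroup.mk L₁ * (FreeGroup.of x)⁻¹)) *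
            ((FreeGroup.of x)⁻¹)⁻¹ = FreeGroup.mk L₁ := by group
        rwa [h12] at h10
      refine hmin L₁ h8 h7 ?_ h9
      rw [hL]
      simp
    rw [h0] at h3
    have h5 : (0 : ℤ) = (0 : X → ℤ) x := rfl
    rw [← h5] at h3
    omega
  | false =>
    have h6 : (FreeGroup.mk [(x, false)] : FreeGroup X) = (FreeGroup.of x)⁻¹ := by
      rw [FreeGroup.of, FreeGroup.inv_mk]
      rfl
    refine ⟨((FreeGroup.of x : FreeGroup X) : FreeGroup X ⧸ M)⁻¹, fun h0 => ?_⟩
    have h3 : D m ((FreeGroup.of x : FreeGroup X) : FreeGroup X ⧸ M)⁻¹ x =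
        -1 + D (FreeGroup.mk L) 1 x := by
      rw [h2, hD, h6, D_inv hD]
      show -D (FreeGroup.of x) _ x + _ = _
      rw [(h1' x _ x).1 ⟨mul_inv_cancel _, rfl⟩, QuotientGroup.mk_inv, inv_inv, mul_inv_cancel]
    have h4 : D (FreeGroup.mk L) 1 x ≤ 0 := by
      apply D_nonpos h1' hD
      intro L₁ L₂ hL h5
      rw [QuotientGroup.eq_one_iff] at h5
      have h7 : L₁ ≠ [] := by
        rintro rfl
        rw [hL, List.nil_append] at hred
        have := hred.rel rfl
        simp at this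
      have h8 : FreeGroup.IsReduced L₁ := by
        rw [hL] at hred
        exact red_sub hred
      refine hmin L₁ h8 h7 ?_ h5
      rw [hL]
      simp
    rw [h0] at h3
    have h5 : (0 : ℤ) = (0 : X → ℤ) x := rfl
    rw [← h5] at h3
    omega

end fox

end Pool.Agent.T2H65.FF
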