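import Pool.Agent.T2H65.FF.Key
import Pool.Agent.T2H65.FF.Fox

/-!
# Finitely generated normal subgroups with large quotients
-/

set_option autoImplicit false

namespace Pool.Agent.T2H65.FF

open Multiplicative

/-- Laurent polynomials -/
abbrev LP : Type := MonoidAlgebra ℚ (Multiplicative ℤ)

/-- the monomials -/
noncomputable abbrev mo (a : Multiplicative ℤ) : LP := MonoidAlgebra.single a 1

/-- two independent crossed homomorphisms -/
def Rk2 {Q : Type} [Group Q] (e : Q →* Multiplicative ℤ) : Prop :=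
  ∃ z₁ z₂ : Q → LP, (∀ a b, z₁ (a * b) = z₁ a + mo (e a) * z₁ b) ∧
    (∀ a b, z₂ (a * b) = z₂ a + mo (e a) * z₂ b) ∧ ∃ a b, z₁ a * z₂ b ≠ z₁ b * z₂ a

theorem Rk2.comp {N Q : Type} [Group N] [Group Q] {e : Q →* Multiplicative ℤ} (h : Rk2 e)
    (q : N →* Q) (hq : Function.Surjective q) : Rk2 (e.comp q) := by
  obtain ⟨z₁, z₂, h1, h2, a, b, hab⟩ := h
  obtain ⟨a, rfl⟩ := hq a
  obtain ⟨b, rfl⟩ := hq b
  refine ⟨fun n => z₁ (q n), fun n => z₂ (q n), fun x y => ?_, fun x y => ?_, a, b, hab⟩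
  · show z₁ (q (x * y)) = _
    rw [map_mul, h1]
    rfl
  · show z₂ (q (x * y)) = _
    rw [map_mul, h2]
    rfl

theorem Rk2.vanish {N : Type} [Group N] {e : N →* Multiplicative ℤ} (h : Rk2 e) (s₀ : N) :
    ∃ z : N → LP, (∀ a b, z (a * b) = z a + mo (e a) * z b) ∧ z s₀ = 0 ∧ ∃ n, z n ≠ 0 := by
  obtain ⟨z₁, z₂, h1, h2, a, b, hab⟩ := h
  by_cases h3 : z₁ s₀ = 0
  · refine ⟨z₁, h1, h3, ?_⟩
    by_contra hc
    push Not at hc
    exact hab (by rw [hc, hc, zero_mul, zero_mul])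
  · refine ⟨fun n => z₂ s₀ * z₁ n - z₁ s₀ * z₂ n, fun x y => ?_, ?_, ?_⟩
    · show z₂ s₀ * z₁ (x * y) - z₁ s₀ * z₂ (x * y) = _
      rw [h1, h2]
      ring
    · show z₂ s₀ * z₁ s₀ - z₁ s₀ * z₂ s₀ = 0
      ring
    · by_contra hc
      push Not at hc
      have ha := hc a
      have hb := hc b
      apply hab
      apply mul_left_cancel₀ h3
      linear_combination (-z₁ a) * hb + z₁ b * ha

/-! ### Power series -/

open PowerSeries in
/-- `1 + X` as a unit -/
theorem exists_uX : ∃ u : (PowerSeries ℚ)ˣ, (u : PowerSeries ℚ) = 1 + X := by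
  have h : (PowerSeries.constantCoeff (1 + X : PowerSeries ℚ)) ≠ 0 := by simp
  exact ⟨⟨1 + X, (1 + X)⁻¹, PowerSeries.mul_inv_cancel _ h, PowerSeries.inv_mul_cancel _ h⟩, rfl⟩

open PowerSeries in
/-- `2` as a unit -/
theorem exists_u2 : ∃ u : (PowerSeries ℚ)ˣ, (u : PowerSeries ℚ) = C 2 := by
  have h : (PowerSeries.constantCoeff (C 2 : PowerSeries ℚ)) ≠ 0 := by simp
  exact ⟨⟨C 2, (C 2)⁻¹, PowerSeries.mul_inv_cancel _ h, PowerSeries.inv_mul_cancel _ h⟩, rfl⟩

open PowerSeries in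
theorem uX_pow {n : ℕ} (hn : n ≠ 0) : (1 + X : PowerSeries ℚ) ^ n ≠ 1 := by
  intro h
  have h1 : (((1 + Polynomial.X : Polynomial ℚ) ^ n : Polynomial ℚ) : PowerSeries ℚ) =
      (1 + X) ^ n := by
    rw [Polynomial.coe_pow, Polynomial.coe_add, Polynomial.coe_one, Polynomial.coe_X]
  have h2 : PowerSeries.coeff 1 ((1 + X : PowerSeries ℚ) ^ n) = n := by
    rw [← h1, Polynomial.coeff_coe, Polynomial.coeff_one_add_X_pow, Nat.choose_one_right]
  rw [h, PowerSeries.coeff_one, if_neg one_ne_zero] at h2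
  exact hn (by exact_mod_cast h2.symm)

/-- the character `(a, b) ↦ 2 ^ a (1 + X) ^ b` -/
theorem exists_char : ∃ τ : (Multiplicative ℤ × Multiplicative ℤ) →* PowerSeries ℚ,
    (∀ a b, PowerSeries.constantCoeff (τ (a, b)) = (2 : ℚ) ^ (toAdd a)) ∧
    ∀ b, b ≠ 1 → τ (1, b) ≠ 1 := by
  obtain ⟨uX, hX⟩ := exists_uX
  obtain ⟨u2, h2⟩ := exists_u2
  obtain ⟨c, hc⟩ : ∃ c : (PowerSeries ℚ)ˣ →* ℚˣ,
      c = Units.map (PowerSeries.constantCoeff (R := ℚ)).toMonoidHom := ⟨_, rfl⟩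
  refine ⟨(Units.coeHom _).comp ((zpowersHom _ u2).coprod (zpowersHom _ uX)), fun a b => ?_,
    fun b hb h => ?_⟩
  · show PowerSeries.constantCoeff (((zpowersHom _ u2 a * zpowersHom _ uX b : (PowerSeries ℚ)ˣ)) :
      PowerSeries ℚ) = _
    have h3 : PowerSeries.constantCoeff (((zpowersHom _ u2 a * zpowersHom _ uX b :
        (PowerSeries ℚ)ˣ)) : PowerSeries ℚ) =
        ((c (zpowersHom _ u2 a * zpowersHom _ uX b) : ℚˣ) : ℚ) := by
      rw [hc]
      rfl
    have h4 : ((c u2 : ℚˣ) : ℚ) = 2 := by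
      have : ((c u2 : ℚˣ) : ℚ) = PowerSeries.constantCoeff (u2 : PowerSeries ℚ) := by
        rw [hc]
        rfl
      rw [this, h2]
      simp
    have h5 : c uX = 1 := by
      apply Units.ext
      have : ((c uX : ℚˣ) : ℚ) = PowerSeries.constantCoeff (uX : PowerSeries ℚ) := by
        rw [hc]
        rfl
      rw [this, hX]
      simp
    rw [h3, map_mul, zpowersHom_apply, zpowersHom_apply, map_zpow, map_zpow, h5, one_zpow, mul_one,
      Units.val_zpow_eq_zpow_val, h4]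
  · have h3 : uX ^ (toAdd b) = 1 := by
      apply Units.ext
      have h4 : (((zpowersHom _ u2 1 * zpowersHom _ uX b : (PowerSeries ℚ)ˣ)) :
          PowerSeries ℚ) = 1 := h
      rw [map_one, one_mul, zpowersHom_apply] at h4
      rw [h4]
      rfl
    rw [← pow_natAbs_eq_one] at h3
    have h5 : (1 + PowerSeries.X : PowerSeries ℚ) ^ (toAdd b).natAbs = 1 := by
      rw [← hX, ← Units.val_pow_eq_pow_val, h3]
      rfl
    refine uX_pow (Int.natAbs_ne_zero.2 fun h6 => hb ?_) h5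
    apply toAdd.injective
    rw [h6, toAdd_one]

/-- **finiteness of the set of finitely generated normal subgroups with large quotients** -/
theorem fib {N : Type} [Group N] [hNf : Group.FG N] {ι : Type} [Infinite ι] (K : ι → Subgroup N)
    (hn : ∀ i, (K i).Normal) (hfg : ∀ i, (K i).FG) (e : ι → N →* Multiplicative ℤ)
    (he : ∀ i, ∀ k ∈ K i, e i k = 1) (hs : ∀ i, ∃ n, e i n = ofAdd 1)
    (hne : ∀ i j, i ≠ j → ∃ k ∈ K i, e j k ≠ 1) (hz : ∀ i, Rk2 (e i)) : False := by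
  classical
  obtain ⟨S, hS⟩ := hNf.out
  -- the element `s₀`
  have h1 : ∀ i, ∃ s : S, e i s ≠ 1 := by
    intro i
    by_contra hc
    push Not at hc
    have h2 : ∀ n, e i n = 1 := by
      intro n
      have hn : n ∈ Subgroup.closure (S : Set N) := by rw [hS]; trivial
      induction hn using Subgroup.closure_induction with
      | mem x hx => exact hc ⟨x, hx⟩
      | one => exact map_one _
      | mul x y _ _ hx hy => rw [map_mul, hx, hy, mul_one]
      | inv x _ hx => rw [map_inv, hx, inv_one]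
    obtain ⟨n, hn⟩ := hs i
    rw [h2] at hn
    have h3 := congrArg toAdd hn
    rw [toAdd_one, toAdd_ofAdd] at h3
    omega
  choose f hf using h1
  obtain ⟨s, hsi⟩ := Finite.exists_infinite_fiber f
  obtain ⟨s₀, hs₀⟩ : ∃ s₀ : N, s₀ = s := ⟨_, rfl⟩
  have hes : ∀ i : f ⁻¹' {s}, e i s₀ ≠ 1 := by
    intro i
    have h2 : f i = s := i.2
    have h3 : s₀ = (f i : N) := by rw [hs₀, h2]
    rw [h3]
    exact hf i
  -- the universal module
  obtain ⟨χ, hχ⟩ : ∃ χ : N →* MonoidAlgebra ℚ (Abelianization N),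
      ∀ n, χ n = MonoidAlgebra.single (Abelianization.of n) 1 :=
    ⟨(MonoidAlgebra.of ℚ (Abelianization N)).comp Abelianization.of, fun n => rfl⟩
  obtain ⟨e', he'⟩ : ∃ e' : ι → Abelianization N →* Multiplicative ℤ,
      ∀ i n, e' i (Abelianization.of n) = e i n :=
    ⟨fun i => Abelianization.lift (e i), fun i n => Abelianization.lift_apply_of _ _⟩
  have hann : ∀ i, ∀ a : MonoidAlgebra ℚ (Abelianization N), (∀ m : Cr χ s₀, a • m = 0) →
      gr (e' i) a = 0 := by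
    intro i a ha
    obtain ⟨z, hz1, hz2, n, hn⟩ := (hz i).vanish s₀
    refine ann_le χ s₀ (gr (e' i)) (z := z) ?_ hz2 hn a ha
    intro x y
    rw [hχ, gr_single, he', hz1]
  have hfgA : Group.FG (Abelianization N) :=
    Group.fg_of_surjective (f := Abelianization.of) (QuotientGroup.mk'_surjective _)
  have hfgM : Monoid.FG (Abelianization N) := Group.fg_iff_monoid_fg.1 hfgA
  have hnoe : IsNoetherianRing (MonoidAlgebra ℚ (Abelianization N)) :=
    Algebra.FiniteType.isNoetherianRing ℚ _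
  obtain ⟨I, hI⟩ : ∃ I : Ideal (MonoidAlgebra ℚ (Abelianization N)),
      I = Module.annihilator _ (Cr χ s₀) := ⟨_, rfl⟩
  obtain ⟨T, hT⟩ : I.FG := (isNoetherianRing_iff_ideal_fg _).1 hnoe I
  obtain ⟨Φ, hΦ⟩ : ∃ Φ : Finset (Abelianization N), ∀ f ∈ T, f.coeff.support ⊆ Φ :=
    ⟨T.biUnion fun f => f.coeff.support, fun f hf => Finset.subset_biUnion_of_mem
      (fun f : MonoidAlgebra ℚ (Abelianization N) => f.coeff.support) hf⟩
  -- two characters with the same pattern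
  obtain ⟨i, j, hij, hpat⟩ := Finite.exists_ne_map_eq_of_infinite
    (fun (i : f ⁻¹' {s}) (p : Φ × Φ) => (e' i p.1 = e' i p.2))
  have hpat' : ∀ x ∈ Φ, ∀ y ∈ Φ, e' i x = e' i y → e' j x = e' j y := by
    intro x hx y hy hxy
    have h2 : (e' i x = e' i y) = (e' j x = e' j y) := congrFun hpat (⟨x, hx⟩, ⟨y, hy⟩)
    exact h2.mp hxy
  have hij' : (i : ι) ≠ j := fun h => hij (Subtype.ext h)
  have hI2 : ∀ a ∈ I, gr ((e' i).prod (e' j)) a = 0 := by
    intro a ha
    have h2 : I ≤ RingHom.ker (gr ((e' i).prod (e' j))) := by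
      rw [← hT, Submodule.span_le]
      intro g hg
      show gr ((e' i).prod (e' j)) g = 0
      apply gr_prod
      · apply hann
        have h3 : g ∈ I := by rw [← hT]; exact Submodule.subset_span hg
        rw [hI] at h3
        exact Module.mem_annihilator.1 h3
      · exact fun x hx y hy => hpat' x (hΦ g hg hx) y (hΦ g hg hy)
    exact h2 ha
  -- the specialization
  obtain ⟨τ, hτ1, hτ2⟩ := exists_char
  obtain ⟨ψ, hψ⟩ : ∃ ψ : MonoidAlgebra ℚ (Multiplicative ℤ × Multiplicative ℤ) →+* LS,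
      ∀ p, ψ (MonoidAlgebra.single p 1) = HahnSeries.ofPowerSeries ℤ ℚ (τ p) := by
    refine ⟨(HahnSeries.ofPowerSeries ℤ ℚ).comp
      (MonoidAlgebra.lift ℚ (PowerSeries ℚ) _ τ).toRingHom, fun p => ?_⟩
    show HahnSeries.ofPowerSeries ℤ ℚ (MonoidAlgebra.lift ℚ (PowerSeries ℚ) _ τ
      (MonoidAlgebra.single p 1)) = _
    rw [MonoidAlgebra.lift_single, one_smul]
  obtain ⟨ρ, hρ⟩ : ∃ ρ : N →* LS, ∀ n, ρ n = HahnSeries.ofPowerSeries ℤ ℚ (τ (e i n, e j n)) :=
    ⟨(HahnSeries.ofPowerSeries ℤ ℚ).toMonoidHom.comp (τ.comp ((e i).prod (e j))), fun n => rfl⟩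
  obtain ⟨z, hz1, hz2, n, hnz⟩ := exists_cr χ s₀ (ψ.comp (gr ((e' i).prod (e' j))))
    (fun a ha => by
      show ψ (gr ((e' i).prod (e' j)) a) = 0
      rw [hI2 a (by rw [hI]; exact Module.mem_annihilator.2 ha), map_zero])
  have hφ : ∀ n, (ψ.comp (gr ((e' i).prod (e' j)))) (χ n) = ρ n := by
    intro n
    show ψ (gr ((e' i).prod (e' j)) (χ n)) = ρ n
    rw [hχ, gr_single, hψ, hρ, MonoidHom.prod_apply, he', he']
  have hcoe : ∀ (p : PowerSeries ℚ) (k : ℤ), (HahnSeries.ofPowerSeries ℤ ℚ p).coeff k =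
      if k < 0 then 0 else PowerSeries.coeff k.natAbs p := fun p k => PowerSeries.coeff_coe p k
  have hc0 : ∀ n, (ρ n).coeff 0 = (2 : ℚ) ^ (toAdd (e i n)) := by
    intro n
    rw [hρ, hcoe, if_neg (lt_irrefl _), ← hτ1 (e i n) (e j n)]
    exact PowerSeries.coeff_zero_eq_constantCoeff_apply _
  have h2pow : ∀ k : ℤ, (2 : ℚ) ^ k = 1 → k = 0 := by
    intro k hk
    exact zpow_right_injective₀ (by norm_num : (0 : ℚ) < 2) (by norm_num) (by simpa using hk)
  have hN := hn i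
  refine hnz (key (K i) (hfg i) ρ ?_ ?_ ?_ ?_ s₀ ?_ z ?_ hz2 n)
  · intro n k hk
    rw [hρ, hcoe, if_pos hk]
  · intro m hm
    rw [hc0, he i m hm, toAdd_one, zpow_zero]
  · obtain ⟨k, hk, hk'⟩ := hne i j hij'
    refine ⟨k, hk, fun h => hτ2 _ hk' ?_⟩
    rw [hρ, he i k hk, ← map_one (HahnSeries.ofPowerSeries ℤ ℚ)] at h
    exact HahnSeries.ofPowerSeries_injective h
  · obtain ⟨n, hn⟩ := hs i
    exact ⟨n, by rw [hc0, hn, toAdd_ofAdd, zpow_one]⟩
  · rw [hc0]
    intro h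
    apply hes i
    apply toAdd.injective
    rw [h2pow _ h, toAdd_one]
  · intro a b
    rw [hz1, hφ]

end Pool.Agent.T2H65.FF
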