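import Pool.Agent.T2H65.FF.Cross

/-!
# Specialization of crossed homomorphisms
-/

set_option autoImplicit false

namespace Pool.Agent.T2H65.FF

/-- Laurent series -/
abbrev LS : Type := HahnSeries ℤ ℚ

/-- the coefficients below `n` vanish -/
def Le (n : ℤ) (x : LS) : Prop := ∀ m < n, x.coeff m = 0

theorem Le.zero (n : ℤ) : Le n 0 := fun _ _ => rfl

theorem Le.add {n : ℤ} {x y : LS} (hx : Le n x) (hy : Le n y) : Le n (x + y) := fun m hm => by
  rw [HahnSeries.coeff_add, hx m hm, hy m hm, add_zero]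

theorem Le.neg {n : ℤ} {x : LS} (hx : Le n x) : Le n (-x) := fun m hm => by
  rw [HahnSeries.coeff_neg, hx m hm, neg_zero]

theorem Le.mono {n m : ℤ} {x : LS} (hx : Le n x) (h : m ≤ n) : Le m x :=
  fun k hk => hx k (lt_of_lt_of_le hk h)

theorem Le.mul {n m : ℤ} {x y : LS} (hx : Le n x) (hy : Le m y) : Le (n + m) (x * y) := by
  intro k hk
  rw [HahnSeries.coeff_mul]
  refine Finset.sum_eq_zero fun ij hij => ?_
  have h1 := (Finset.mem_antidiagonal.1 hij).2.2
  by_cases h2 : ij.1 < n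
  · rw [hx _ h2, zero_mul]
  · rw [hy ij.2 (by omega), mul_zero]

theorem Le.coeff {n m : ℤ} {x y : LS} (hx : Le n x) (hy : Le m y) :
    (x * y).coeff (n + m) = x.coeff n * y.coeff m := by
  classical
  rw [HahnSeries.coeff_mul]
  have h1 : ∀ ij ∈ Finset.antidiagonal x.isPWO_support y.isPWO_support (n + m), ij ≠ (n, m) →
      x.coeff ij.1 * y.coeff ij.2 = 0 := by
    intro ij hij hne
    have h1 := (Finset.mem_antidiagonal.1 hij).2.2
    by_cases h2 : ij.1 < n
    · rw [hx _ h2, zero_mul]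
    · by_cases h3 : ij.2 < m
      · rw [hy _ h3, mul_zero]
      · exact absurd (Prod.ext (by omega : ij.1 = n) (by omega : ij.2 = m)) hne
  by_cases h2 : (n, m) ∈ Finset.antidiagonal x.isPWO_support y.isPWO_support (n + m)
  · rw [Finset.sum_eq_single_of_mem _ h2 h1]
  · rw [Finset.sum_eq_zero fun ij hij => h1 ij hij fun h => h2 (h ▸ hij)]
    symm
    by_contra h3
    apply h2
    rw [Finset.mem_antidiagonal]
    exact ⟨left_ne_zero_of_mul h3, right_ne_zero_of_mul h3, rfl⟩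

theorem Le.coeff0 {m : ℤ} {x y : LS} (hx : Le 0 x) (hy : Le m y) :
    (x * y).coeff m = x.coeff 0 * y.coeff m := by
  have := hx.coeff hy
  rwa [zero_add] at this

theorem exists_coeff {x : LS} (hx : x ≠ 0) : ∃ n : ℤ, ∀ m, Le m x → m ≤ n := by
  have h1 : ∃ n, x.coeff n ≠ 0 := by
    by_contra hc
    push Not at hc
    exact hx (HahnSeries.ext (funext hc))
  obtain ⟨n, hn⟩ := h1
  refine ⟨n, fun m hm => ?_⟩
  by_contra h2
  exact hn (hm n (by omega))

theorem exists_Le (x : LS) : ∃ n : ℤ, Le n x := by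
  by_cases h : x = 0
  · exact ⟨0, by rw [h]; exact Le.zero 0⟩
  · exact ⟨x.order, fun m hm => HahnSeries.coeff_eq_zero_of_lt_order hm⟩

/-- a maximal integer with a property -/
theorem exists_max {P : ℤ → Prop} (h0 : ∃ n, P n) (h1 : ∃ b, ∀ n, P n → n ≤ b) :
    ∃ n, P n ∧ ∀ m, P m → m ≤ n := by
  obtain ⟨b, hb⟩ := h1
  obtain ⟨n, hn, hn'⟩ := Int.exists_greatest_of_bdd ⟨b, hb⟩ h0
  exact ⟨n, hn, hn'⟩

/-- a finitely generated group of rational numbers which is divisible by two -/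
theorem div_two {N : Type} [Group N] (M : Subgroup N) [hMn : M.Normal] (hM : M.FG) (u : N → ℚ)
    (hu : ∀ a ∈ M, ∀ b ∈ M, u (a * b) = u a + u b) (n : N)
    (hn : ∀ m ∈ M, u (n * m * n⁻¹) = 2 * u m) : ∀ m ∈ M, u m = 0 := by
  obtain ⟨S, hS⟩ := hM
  have hSM : ∀ s ∈ S, s ∈ M := fun s hs => by rw [← hS]; exact Subgroup.subset_closure hs
  have h1 : u 1 = 0 := by
    have := hu 1 (one_mem _) 1 (one_mem _)
    rw [mul_one] at this
    linarith
  obtain ⟨d, hd, hd'⟩ : ∃ d : ℕ, d ≠ 0 ∧ ∀ m ∈ M, ∃ k : ℤ, (d : ℚ) * u m = k := by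
    refine ⟨∏ s ∈ S, (u s).den, Finset.prod_ne_zero_iff.2 fun s _ => (u s).den_nz, ?_⟩
    intro m hm
    rw [← hS] at hm
    induction hm using Subgroup.closure_induction with
    | mem x hx =>
      obtain ⟨c, hc⟩ := Finset.dvd_prod_of_mem (fun s => (u s).den) hx
      refine ⟨c * (u x).num, ?_⟩
      rw [hc]
      push_cast
      have h2 : ((u x).den : ℚ) * u x = (u x).num := Rat.den_mul_eq_num _
      calc ((u x).den : ℚ) * c * u x = c * (((u x).den : ℚ) * u x) := by ring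
        _ = _ := by rw [h2]
    | one => exact ⟨0, by rw [h1]; simp⟩
    | mul x y hx hy ihx ihy =>
      rw [hS] at hx hy
      obtain ⟨a, ha⟩ := ihx
      obtain ⟨b, hb⟩ := ihy
      exact ⟨a + b, by rw [hu x hx y hy, mul_add, ha, hb]; push_cast; ring⟩
    | inv x hx ihx =>
      rw [hS] at hx
      obtain ⟨a, ha⟩ := ihx
      have h3 : u x⁻¹ = -u x := by
        have := hu x hx x⁻¹ (inv_mem hx)
        rw [mul_inv_cancel, h1] at this
        linarith
      exact ⟨-a, by rw [h3, mul_neg, ha]; push_cast; ring⟩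
  have h2 : ∀ k : ℕ, ∀ m ∈ M, ∃ m' ∈ M, u m = 2 ^ k * u m' := by
    intro k
    induction k with
    | zero => exact fun m hm => ⟨m, hm, by simp⟩
    | succ k ih =>
      intro m hm
      obtain ⟨m', hm', h3⟩ := ih m hm
      refine ⟨n⁻¹ * m' * n, ?_, ?_⟩
      · have := hMn.conj_mem m' hm' n⁻¹
        rwa [inv_inv] at this
      · have h4 := hn (n⁻¹ * m' * n) (by
          have := hMn.conj_mem m' hm' n⁻¹
          rwa [inv_inv] at this)
        have h5 : n * (n⁻¹ * m' * n) * n⁻¹ = m' := by group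
        rw [h5] at h4
        rw [h3, h4, pow_succ]
        ring
  intro m hm
  obtain ⟨a, ha⟩ := hd' m hm
  have h3 : a = 0 := by
    by_contra hne
    obtain ⟨m', hm', h4⟩ := h2 a.natAbs m hm
    obtain ⟨b, hb⟩ := hd' m' hm'
    have h5 : (a : ℚ) = 2 ^ a.natAbs * b := by
      rw [← ha, h4, ← hb]
      ring
    have h6 : a = 2 ^ a.natAbs * b := by exact_mod_cast h5
    have h7 : b ≠ 0 := by
      rintro rfl
      rw [mul_zero] at h6
      exact hne h6
    have h8 : a.natAbs = 2 ^ a.natAbs * b.natAbs := by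
      conv_lhs => rw [h6]
      rw [Int.natAbs_mul, Int.natAbs_pow]
      rfl
    have h9 : a.natAbs < 2 ^ a.natAbs := Nat.lt_two_pow_self
    have h10 : 1 ≤ b.natAbs := Nat.one_le_iff_ne_zero.2 (Int.natAbs_ne_zero.2 h7)
    have h11 : 2 ^ a.natAbs * 1 ≤ 2 ^ a.natAbs * b.natAbs := Nat.mul_le_mul_left _ h10
    rw [← h8, mul_one] at h11
    exact absurd h9 (not_lt.2 h11)
  rw [h3, Int.cast_zero] at ha
  exact (mul_eq_zero.1 ha).resolve_left (by exact_mod_cast hd)

/-- **the key lemma** -/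
theorem key {N : Type} [Group N] [hN : Group.FG N] (M : Subgroup N) [hMn : M.Normal] (hM : M.FG)
    (ρ : N →* LS) (hρ : ∀ n, Le 0 (ρ n)) (hρM : ∀ m ∈ M, (ρ m).coeff 0 = 1)
    (hρM' : ∃ m ∈ M, ρ m ≠ 1) (hρ2 : ∃ n, (ρ n).coeff 0 = 2) (s₀ : N) (hs₀ : (ρ s₀).coeff 0 ≠ 1)
    (z : N → LS) (hz : ∀ a b, z (a * b) = z a + ρ a * z b) (hz0 : z s₀ = 0) : ∀ n, z n = 0 := by
  by_contra hne
  push Not at hne
  have hz1 : z 1 = 0 := by
    have := hz 1 1
    rw [mul_one, map_one, one_mul, left_eq_add] at this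
    exact this
  have hzi : ∀ a, z a⁻¹ = -(ρ a⁻¹ * z a) := by
    intro a
    have := hz a⁻¹ a
    rw [inv_mul_cancel, hz1] at this
    exact (neg_eq_of_add_eq_zero_left this.symm).symm
  -- normalization
  obtain ⟨n₀, hn₀, hn₀'⟩ : ∃ n₀ : ℤ, (∀ n, Le n₀ (z n)) ∧ ∀ m, (∀ n, Le m (z n)) → m ≤ n₀ := by
    apply exists_max
    · obtain ⟨S, hS⟩ := hN.out
      choose o ho using fun n => exists_Le (z n)
      obtain ⟨b, hb⟩ : ∃ b : ℤ, ∀ s ∈ S, b ≤ o s := by
        rcases S.eq_empty_or_nonempty with h | h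
        · exact ⟨0, by simp [h]⟩
        · obtain ⟨s, hs, hs'⟩ := S.exists_min_image o h
          exact ⟨o s, hs'⟩
      refine ⟨b, fun n => ?_⟩
      have hn : n ∈ Subgroup.closure (S : Set N) := by rw [hS]; trivial
      induction hn using Subgroup.closure_induction with
      | mem x hx => exact (ho x).mono (hb x hx)
      | one => rw [hz1]; exact Le.zero b
      | mul x y _ _ hx hy =>
        rw [hz]
        refine hx.add ?_
        have := (hρ x).mul hy
        rwa [zero_add] at this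
      | inv x _ hx =>
        rw [hzi]
        have := (hρ x⁻¹).mul hx
        rw [zero_add] at this
        exact this.neg
    · obtain ⟨n, hn⟩ := hne
      obtain ⟨b, hb⟩ := exists_coeff hn
      exact ⟨b, fun m hm => hb m (hm n)⟩
  obtain ⟨y, hy⟩ : ∃ y : N → LS, y = fun n => HahnSeries.single (-n₀) 1 * z n := ⟨_, rfl⟩
  have hyc : ∀ n k, (y n).coeff k = (z n).coeff (k + n₀) := by
    intro n k
    have h1 := HahnSeries.coeff_single_mul_add (r := (1 : ℚ)) (x := z n) (a := k + n₀) (b := -n₀)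
    rw [one_mul, add_neg_cancel_right] at h1
    rw [hy]
    exact h1
  have hyz : ∀ a b, y (a * b) = y a + ρ a * y b := by
    intro a b
    rw [hy]
    show _ * z (a * b) = _ * z a + ρ a * (_ * z b)
    rw [hz, mul_add]
    congr 1
    ring
  have hy1 : y 1 = 0 := by
    have := hyz 1 1
    rw [mul_one, map_one, one_mul, left_eq_add] at this
    exact this
  have hyi : ∀ a, y a⁻¹ = -(ρ a⁻¹ * y a) := by
    intro a
    have := hyz a⁻¹ a
    rw [inv_mul_cancel, hy1] at this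
    exact (neg_eq_of_add_eq_zero_left this.symm).symm
  have hyL : ∀ n, Le 0 (y n) := by
    intro n k hk
    rw [hyc]
    exact hn₀ n _ (by omega)
  have hys : y s₀ = 0 := by
    rw [hy]
    show _ * z s₀ = 0
    rw [hz0, mul_zero]
  have hyn : ∃ n, (y n).coeff 0 ≠ 0 := by
    by_contra hc
    push Not at hc
    have h1 := hn₀' (n₀ + 1) (fun n k hk => by
      rcases lt_or_eq_of_le (Int.lt_add_one_iff.1 hk) with h | h
      · exact hn₀ n k h
      · have := hc n
        rw [hyc, zero_add] at this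
        rw [h]
        exact this)
    omega
  have hyb : ∀ a b, (y (a * b)).coeff 0 = (y a).coeff 0 + (ρ a).coeff 0 * (y b).coeff 0 := by
    intro a b
    rw [hyz, HahnSeries.coeff_add, (hρ a).coeff0 (hyL b)]
  -- the restriction to `M`
  have hρ1 : ∀ m ∈ M, Le 1 (ρ m - 1) := by
    intro m hm k hk
    rw [HahnSeries.coeff_sub, HahnSeries.coeff_one]
    rcases lt_or_eq_of_le (Int.lt_add_one_iff.1 (by omega : k < 0 + 1)) with h | h
    · rw [hρ m k h, if_neg (by omega), sub_zero]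
    · rw [h, hρM m hm, if_pos rfl, sub_self]
  obtain ⟨l, ⟨hl1, hl2⟩, hl'⟩ : ∃ l : ℤ, ((∀ m ∈ M, Le l (y m)) ∧ ∀ m ∈ M, Le l (ρ m - 1)) ∧
      ∀ k, ((∀ m ∈ M, Le k (y m)) ∧ ∀ m ∈ M, Le k (ρ m - 1)) → k ≤ l := by
    apply exists_max
    · exact ⟨0, fun m _ => hyL m, fun m hm => (hρ1 m hm).mono (by omega)⟩
    · obtain ⟨m, hm, hm'⟩ := hρM'
      obtain ⟨b, hb⟩ := exists_coeff (sub_ne_zero.2 hm')
      exact ⟨b, fun k hk => hb k (hk.2 m hm)⟩
  obtain ⟨u, hu⟩ : ∃ u : N → ℚ, u = fun m => (y m).coeff l := ⟨_, rfl⟩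
  obtain ⟨v, hv⟩ : ∃ v : N → ℚ, v = fun m => (ρ m - 1).coeff l := ⟨_, rfl⟩
  have hu' : ∀ m, u m = (y m).coeff l := fun m => by rw [hu]
  have hv' : ∀ m, v m = (ρ m - 1).coeff l := fun m => by rw [hv]
  have huv : ∃ m ∈ M, u m ≠ 0 ∨ v m ≠ 0 := by
    by_contra hc
    push Not at hc
    have h1 := hl' (l + 1) ⟨fun m hm k hk => by
      rcases lt_or_eq_of_le (Int.lt_add_one_iff.1 hk) with h | h
      · exact hl1 m hm k h
      · rw [h, ← hu']
        exact (hc m hm).1, fun m hm k hk => by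
      rcases lt_or_eq_of_le (Int.lt_add_one_iff.1 hk) with h | h
      · exact hl2 m hm k h
      · rw [h, ← hv']
        exact (hc m hm).2⟩
    omega
  have huM : ∀ a ∈ M, ∀ b ∈ M, u (a * b) = u a + u b := by
    intro a ha b hb
    have h1 : y (a * b) = y a + y b + (ρ a - 1) * y b := by rw [hyz]; ring
    have h2 : ((ρ a - 1) * y b).coeff l = 0 := (hρ1 a ha).mul (hl1 b hb) l (by omega)
    rw [hu', hu', hu', h1, HahnSeries.coeff_add, HahnSeries.coeff_add, h2, add_zero]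
  have hvM : ∀ a ∈ M, ∀ b ∈ M, v (a * b) = v a + v b := by
    intro a ha b hb
    have h1 : ρ (a * b) - 1 = (ρ a - 1) + (ρ b - 1) + (ρ a - 1) * (ρ b - 1) := by
      rw [map_mul]
      ring
    have h2 : ((ρ a - 1) * (ρ b - 1)).coeff l = 0 := (hρ1 a ha).mul (hl2 b hb) l (by omega)
    rw [hv', hv', hv', h1, HahnSeries.coeff_add, HahnSeries.coeff_add, h2, add_zero]
  have hρc : ∀ n m, ρ (n * m * n⁻¹) = ρ m := by
    intro n m
    rw [map_mul, map_mul, mul_right_comm, ← map_mul, mul_inv_cancel, map_one, one_mul]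
  have hvc : ∀ n m, v (n * m * n⁻¹) = v m := by
    intro n m
    rw [hv', hv', hρc]
  have huc : ∀ n, ∀ m ∈ M, u (n * m * n⁻¹) = (ρ n).coeff 0 * u m - (y n).coeff 0 * v m := by
    intro n m hm
    have h1 : y (n * m * n⁻¹) = ρ n * y m - y n * (ρ m - 1) := by
      have h2 : ρ n * ρ m * ρ n⁻¹ = ρ m := by rw [← map_mul, ← map_mul, hρc]
      rw [hyz (n * m), hyz n, hyi, map_mul]
      linear_combination (- y n) * h2
    rw [hu', h1, HahnSeries.coeff_sub, (hρ n).coeff0 (hl1 m hm), (hyL n).coeff0 (hl2 m hm),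
      ← hu', ← hv']
  obtain ⟨n, hn⟩ := hρ2
  obtain ⟨β, hβ⟩ : ∃ β, β = (y n).coeff 0 := ⟨_, rfl⟩
  have h0 : ∀ m ∈ M, u m - β * v m = 0 := by
    refine div_two M hM (fun m => u m - β * v m) ?_ n ?_
    · intro a ha b hb
      show u (a * b) - β * v (a * b) = (u a - β * v a) + (u b - β * v b)
      rw [huM a ha b hb, hvM a ha b hb]
      ring
    · intro m hm
      show u (n * m * n⁻¹) - β * v (n * m * n⁻¹) = 2 * (u m - β * v m)
      rw [huc n m hm, hvc, hn, ← hβ]
      ring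
  obtain ⟨m, hm, hm'⟩ := huv
  have hvm : v m ≠ 0 := by
    rcases hm' with h | h
    · intro h1
      have := h0 m hm
      rw [h1, mul_zero, sub_zero] at this
      exact h this
    · exact h
  have hall : ∀ a, (y a).coeff 0 = β * ((ρ a).coeff 0 - 1) := by
    intro a
    have h1 := h0 _ (hMn.conj_mem m hm a)
    have h2 := h0 m hm
    rw [huc a m hm, hvc] at h1
    have h3 : ((y a).coeff 0 - β * ((ρ a).coeff 0 - 1)) * v m = 0 := by
      linear_combination (-1 : ℚ) * h1 + (ρ a).coeff 0 * h2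
    exact sub_eq_zero.1 ((mul_eq_zero.1 h3).resolve_right hvm)
  have hβ0 : β = 0 := by
    have h1 := hall s₀
    rw [hys, HahnSeries.coeff_zero] at h1
    exact (mul_eq_zero.1 h1.symm).resolve_right (sub_ne_zero.2 hs₀)
  obtain ⟨a, ha⟩ := hyn
  rw [hall, hβ0, zero_mul] at ha
  exact ha rfl

end Pool.Agent.T2H65.FF
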