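import Pool.Agent.T2H65.FF.Fib

/-!
# Large quotients
-/

set_option autoImplicit false

namespace Pool.Agent.T2H65.FF

open Multiplicative

/-- nontrivial finitely generated normal subgroups have finite index, and for some epimorphism to the
integers there are two independent crossed homomorphisms with values in the Laurent polynomials -/
structure Large (Q : Type) [Group Q] : Prop where
  fin : ∀ M : Subgroup Q, M.Normal → M.FG → M ≠ ⊥ → M.FiniteIndex
  rk : ∃ e : Q →* Multiplicative ℤ, (∃ x, e x = ofAdd 1) ∧ Rk2 e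

/-- non-abelian free groups are large -/
theorem free_large (X : Type) [Nontrivial X] : Large (FreeGroup X) := by
  classical
  refine ⟨fun M hMn hM hne => ?_, ?_⟩
  · have := fg_normal (M := M) hM hne
    exact Subgroup.finiteIndex_of_finite_quotient
  · obtain ⟨x, y, hxy⟩ := exists_pair_ne X
    obtain ⟨e, he⟩ : ∃ e : FreeGroup X →* Multiplicative ℤ, ∀ w, e (FreeGroup.of w) =
        if w = x then ofAdd 1 else 1 :=
      ⟨FreeGroup.lift fun w => if w = x then ofAdd 1 else 1, fun w => FreeGroup.lift_apply_of⟩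
    refine ⟨e, ⟨FreeGroup.of x, by rw [he, if_pos rfl]⟩, ?_⟩
    obtain ⟨a, ha⟩ : ∃ a : FreeGroup X →* AddMonoid.End LP, ∀ g w, a g w = mo (e g) * w := by
      refine ⟨{ toFun := fun g => AddMonoidHom.mulLeft (mo (e g)), map_one' := ?_,
                map_mul' := fun g h => ?_ }, fun g w => rfl⟩
      · ext w : 1
        show mo (e 1) * w = w
        rw [map_one]
        exact one_mul w
      · ext w : 1
        show mo (e (g * h)) * w = mo (e g) * (mo (e h) * w)
        rw [map_mul, ← mul_assoc, MonoidAlgebra.single_mul_single, one_mul]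
    obtain ⟨z₁, h1, h1'⟩ := exists_crossed a fun w => if w = x then 1 else 0
    obtain ⟨z₂, h2, h2'⟩ := exists_crossed a fun w => if w = y then 1 else 0
    refine ⟨z₁, z₂, fun g h => by rw [h1, ha], fun g h => by rw [h2, ha], FreeGroup.of x,
      FreeGroup.of y, ?_⟩
    rw [h1', h1', h2', h2', if_pos rfl, if_pos rfl, if_neg (Ne.symm hxy), zero_mul, one_mul]
    exact one_ne_zero

theorem Large.equiv {Q Q' : Type} [Group Q] [Group Q'] (h : Large Q) (E : Q ≃* Q') : Large Q' := by
  refine ⟨fun M hMn hM hne => ?_, ?_⟩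
  · have h1 : (M.comap E.toMonoidHom).FiniteIndex := by
      refine h.fin _ (hMn.comap _) ?_ fun h1 => hne ?_
      · have h2 : M.comap E.toMonoidHom = M.map E.symm.toMonoidHom := by
          ext x
          constructor
          · intro hx
            exact ⟨E x, hx, E.symm_apply_apply x⟩
          · rintro ⟨y, hy, rfl⟩
            show E (E.symm y) ∈ M
            rw [MulEquiv.apply_symm_apply]
            exact hy
        rw [h2]
        obtain ⟨S, hS⟩ := hM
        classical
        exact ⟨S.image E.symm.toMonoidHom, by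
          rw [Finset.coe_image, ← MonoidHom.map_closure, hS]⟩
      · rw [eq_bot_iff]
        intro x hx
        have h3 : E.symm x ∈ M.comap E.toMonoidHom := by
          show E (E.symm x) ∈ M
          rw [MulEquiv.apply_symm_apply]
          exact hx
        rw [h1, Subgroup.mem_bot] at h3
        rw [Subgroup.mem_bot, ← E.apply_symm_apply x, h3, map_one]
    constructor
    have h2 := Subgroup.index_comap_of_surjective M (f := E.toMonoidHom) E.surjective
    rw [← h2]
    exact h1.index_ne_zero
  · obtain ⟨e, ⟨x, hx⟩, hrk⟩ := h.rk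
    refine ⟨e.comp E.symm.toMonoidHom, ⟨E x, ?_⟩, hrk.comp _ E.symm.surjective⟩
    show e (E.symm (E x)) = _
    rw [MulEquiv.symm_apply_apply, hx]

/-- the image of a finitely generated subgroup -/
theorem fg_map {N Q : Type} [Group N] [Group Q] (f : N →* Q) {K : Subgroup N} (hK : K.FG) :
    (K.map f).FG := by
  classical
  obtain ⟨S, hS⟩ := hK
  exact ⟨S.image f, by rw [Finset.coe_image, ← MonoidHom.map_closure, hS]⟩

/-- powers in subgroups of finite index -/
theorem exists_pow {Q : Type} [Group Q] (M : Subgroup Q) (hM : M.FiniteIndex) (x : Q) :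
    ∃ n : ℕ, n ≠ 0 ∧ x ^ n ∈ M := by
  obtain ⟨n, hn, _, h⟩ := Subgroup.exists_pow_mem_of_index_ne_zero hM.index_ne_zero x
  exact ⟨n, by omega, h⟩

/-- **finitely many epimorphisms with finitely generated kernel onto a large group** -/
theorem fin_epi {N Q : Type} [Group N] [Group Q] [hN : Group.FG N] (hQ : Large Q) {ι : Type}
    (q : ι → N →* Q) (hq : ∀ i, Function.Surjective (q i)) (hfg : ∀ i, (q i).ker.FG)
    (hinj : ∀ i j, (q i).ker = (q j).ker → i = j) : Finite ι := by
  by_contra hinf
  have hinf' : Infinite ι := not_finite_iff_infinite.1 hinf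
  obtain ⟨e, ⟨x, hx⟩, hrk⟩ := hQ.rk
  have hpow : ∀ n : ℕ, n ≠ 0 → e (x ^ n) ≠ 1 := by
    intro n hn h
    rw [map_pow, hx] at h
    have h1 := congrArg toAdd h
    rw [toAdd_pow, toAdd_ofAdd, toAdd_one, nsmul_eq_mul, mul_one] at h1
    exact hn (by exact_mod_cast h1)
  refine fib (fun i => (q i).ker) (fun i => inferInstance) hfg (fun i => e.comp (q i))
    (fun i k hk => ?_) (fun i => ?_) (fun i j hij => ?_) (fun i => hrk.comp _ (hq i))
  · show e (q i k) = 1
    rw [MonoidHom.mem_ker.1 hk, map_one]
  · obtain ⟨n, hn⟩ := hq i x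
    exact ⟨n, by show e (q i n) = _; rw [hn, hx]⟩
  · -- the image of `K i` in `N ⧸ K j`
    have hne : (q i).ker.map (q j) ≠ ⊥ := by
      intro h1
      have hle : (q i).ker ≤ (q j).ker := by
        rwa [Subgroup.map_eq_bot_iff] at h1
      have h2 : (q j).ker.map (q i) ≠ ⊥ := by
        intro h3
        rw [Subgroup.map_eq_bot_iff] at h3
        exact hij (hinj i j (le_antisymm hle h3))
      have h3 := hQ.fin _ (Subgroup.Normal.map inferInstance _ (hq i)) (fg_map (q i) (hfg j)) h2
      obtain ⟨n, hn⟩ := hq j x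
      obtain ⟨m, hm, k, hk, hk'⟩ := exists_pow _ h3 (q i n)
      have h4 : (n ^ m)⁻¹ * k ∈ (q j).ker := by
        apply hle
        rw [MonoidHom.mem_ker, map_mul, map_inv, map_pow, hk', inv_mul_cancel]
      rw [MonoidHom.mem_ker, map_mul, map_inv, map_pow, MonoidHom.mem_ker.1 hk, mul_one,
        inv_eq_one, hn] at h4
      exact hpow m hm (by rw [h4, map_one])
    have h3 := hQ.fin _ (Subgroup.Normal.map inferInstance _ (hq j)) (fg_map (q j) (hfg i)) hne
    obtain ⟨m, hm, k, hk, hk'⟩ := exists_pow _ h3 x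
    exact ⟨k, hk, by show e (q j k) ≠ 1; rw [hk']; exact hpow m hm⟩

end Pool.Agent.T2H65.FF
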