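import Pool.Agent.T2H65.FF.Large
import Pool.Agent.T2H65.GP.Raag

/-!
# Extensions by extensions of good kernels by large groups
-/

set_option autoImplicit false

namespace Pool.Agent.T2H65.FF

open Pool.Agent.Y110.FJ
open Pool.Agent.R684.FP
open Pool.Agent.R941.FJ (C_equiv C_le C_cyc mem_sup_normal)
open Pool.Agent.Y529.FJ (up)

/-- `C` is closed under extensions with kernel isomorphic to `K` -/
def GoodKer (C : ∀ (G : Type) [Group G], Prop) (K : Type) [Group K] : Prop :=
  ∀ (G : Type) [Group G] (L : Subgroup G) [L.Normal], Nonempty (L ≃* K) → C (G ⧸ L) → C G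

variable {C : ∀ (G : Type) [Group G], Prop}

theorem GoodKer.equiv {K K' : Type} [Group K] [Group K'] (h : GoodKer C K) (E : K ≃* K') :
    GoodKer C K' := by
  intro G _ L _ ⟨E'⟩ hQ
  exact h G L ⟨E'.trans E.symm⟩ hQ

/-- free groups are good -/
theorem free_good (hC : ClosedE C) (hF : FbC C) (X : Type) : GoodKer C (FreeGroup X) := by
  intro G _ L _ ⟨E⟩ hQ
  have := IsFreeGroup.ofMulEquiv E.symm
  exact free_ext hC hF L hQ

/-- quotients of groups by the same kernel -/
theorem equiv_of_ker {A B B' : Type} [Group A] [Group B] [Group B'] (f : A →* B) (f' : A →* B')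
    (hf : Function.Surjective f) (hf' : Function.Surjective f') (h : f.ker = f'.ker) :
    Nonempty (B ≃* B') :=
  ⟨((QuotientGroup.quotientKerEquivOfSurjective f hf).symm.trans
    (QuotientGroup.quotientMulEquivOfEq h)).trans
      (QuotientGroup.quotientKerEquivOfSurjective f' hf')⟩

/-- the case that the smaller kernel is normal -/
theorem two_step (hC : ClosedE C) {N Q : Type} [Group N] [Group Q] (q : N →* Q) (hq : Function.Surjective q)
    (hK : GoodKer C q.ker) (hQ : GoodKer C Q) {G : Type} [Group G] (L : Subgroup G) [L.Normal]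
    (E : N ≃* L) (K : Subgroup G) [hKn : K.Normal]
    (hKL : K = (q.ker.map E.toMonoidHom).map L.subtype) (hG : C (G ⧸ L)) : C G := by
  have hle : K ≤ L := by
    rw [hKL]
    rintro _ ⟨y, _, rfl⟩
    exact y.2
  have hKe : Nonempty (K ≃* q.ker) := by
    have h1 : Function.Injective (L.subtype.comp E.toMonoidHom) :=
      L.subtype_injective.comp E.injective
    have h2 : K = q.ker.map (L.subtype.comp E.toMonoidHom) := by rw [hKL, Subgroup.map_map]
    rw [h2]
    exact ⟨(q.ker.equivMapOfInjective _ h1).symm⟩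
  refine hK G K hKe ?_
  have hLn : (L.map (QuotientGroup.mk' K)).Normal :=
    Subgroup.Normal.map inferInstance _ (QuotientGroup.mk'_surjective K)
  refine hQ (G ⧸ K) (L.map (QuotientGroup.mk' K)) ?_ ?_
  · obtain ⟨f, hf⟩ : ∃ f : N →* (L.map (QuotientGroup.mk' K)),
        ∀ n, (f n : G ⧸ K) = QuotientGroup.mk' K (E n) :=
      ⟨((QuotientGroup.mk' K).comp (L.subtype.comp E.toMonoidHom)).codRestrict _
        fun n => ⟨E n, (E n).2, rfl⟩, fun n => rfl⟩
    refine equiv_of_ker f q ?_ hq ?_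
    · rintro ⟨_, x, hx, rfl⟩
      refine ⟨E.symm ⟨x, hx⟩, Subtype.ext ?_⟩
      rw [hf, MulEquiv.apply_symm_apply]
    · ext n
      rw [MonoidHom.mem_ker, MonoidHom.mem_ker, ← Subtype.coe_inj, hf]
      show QuotientGroup.mk' K (E n) = 1 ↔ _
      rw [QuotientGroup.mk'_apply, QuotientGroup.eq_one_iff, hKL]
      constructor
      · rintro ⟨_, ⟨m, hm, rfl⟩, h1⟩
        have h2 : E m = E n := Subtype.ext h1
        rw [← E.injective h2]
        exact hm
      · intro h1
        exact ⟨E n, ⟨n, h1, rfl⟩, rfl⟩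
  · exact C_equiv hC.base (QuotientGroup.quotientQuotientEquivQuotient K L hle) hG

/-- **extensions of good kernels by large good groups are good** -/
theorem step (hC : ClosedE C) {N Q : Type} [Group N] [Group Q] [hN : Group.FG N] (hQl : Large Q)
    (q : N →* Q) (hq : Function.Surjective q) (hfg : q.ker.FG) (hK : GoodKer C q.ker)
    (hQ : GoodKer C Q) : GoodKer C N := by
  intro G _ L hLn ⟨E'⟩ hG
  obtain ⟨E, hE⟩ : ∃ E : N ≃* L, E = E'.symm := ⟨_, rfl⟩
  obtain ⟨K, hK'⟩ : ∃ K : Subgroup G, K = (q.ker.map E.toMonoidHom).map L.subtype := ⟨_, rfl⟩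
  have hKm : ∀ n, (E n : G) ∈ K ↔ n ∈ q.ker := by
    intro n
    rw [hK']
    constructor
    · rintro ⟨_, ⟨m, hm, rfl⟩, h1⟩
      have h2 : E m = E n := Subtype.ext h1
      rw [← E.injective h2]
      exact hm
    · intro h1
      exact ⟨E n, ⟨n, h1, rfl⟩, rfl⟩
  have hle : K ≤ L := by
    rw [hK']
    rintro _ ⟨y, _, rfl⟩
    exact y.2
  -- the stabilizer
  let G₁ : Subgroup G :=
    { carrier := {g | ∀ x, x ∈ K ↔ g * x * g⁻¹ ∈ K}
      one_mem' := fun x => by rw [one_mul, inv_one, mul_one]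
      mul_mem' := fun {g h} hg hh x => by
        rw [hh x, hg]
        have : g * (h * x * h⁻¹) * g⁻¹ = g * h * x * (g * h)⁻¹ := by group
        rw [this]
      inv_mem' := fun {g} hg x => by
        rw [hg (g⁻¹ * x * g⁻¹⁻¹)]
        have : g * (g⁻¹ * x * g⁻¹⁻¹) * g⁻¹ = x := by group
        rw [this] }
  have hmem : ∀ g, g ∈ G₁ ↔ ∀ x, x ∈ K ↔ g * x * g⁻¹ ∈ K := fun g => Iff.rfl
  obtain ⟨φ, hφ⟩ : ∃ φ : G → N ≃* N, ∀ g n, (E (φ g n) : G) = g * E n * g⁻¹ := by
    refine ⟨fun g => (E.trans (MulAut.conjNormal g)).trans E.symm, fun g n => ?_⟩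
    show (E (E.symm (MulAut.conjNormal g (E n))) : G) = _
    rw [MulEquiv.apply_symm_apply, MulAut.conjNormal_apply]
  have hfin : Finite (G ⧸ G₁) := by
    refine fin_epi hQl (fun i : G ⧸ G₁ => q.comp (φ i.out⁻¹).toMonoidHom)
      (fun i => hq.comp (φ i.out⁻¹).surjective) (fun i => ?_) (fun i j hij => ?_)
    · have h1 : (q.comp (φ i.out⁻¹).toMonoidHom).ker = q.ker.map (φ i.out⁻¹).symm.toMonoidHom := by
        ext x
        constructor
        · intro hx
          exact ⟨φ i.out⁻¹ x, hx, (φ i.out⁻¹).symm_apply_apply x⟩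
        · rintro ⟨y, hy, rfl⟩
          show q (φ i.out⁻¹ ((φ i.out⁻¹).symm y)) = 1
          rw [MulEquiv.apply_symm_apply]
          exact hy
      rw [h1]
      exact fg_map _ hfg
    · have h1 : ∀ x, i.out⁻¹ * x * i.out⁻¹⁻¹ ∈ K ↔ j.out⁻¹ * x * j.out⁻¹⁻¹ ∈ K := by
        intro x
        by_cases hx : x ∈ L
        · obtain ⟨n, hn⟩ := E.surjective ⟨x, hx⟩
          have hn' : (E n : G) = x := by rw [hn]
          rw [← hn', ← hφ, ← hφ, hKm, hKm]
          have h2 : n ∈ (q.comp (φ i.out⁻¹).toMonoidHom).ker ↔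
              n ∈ (q.comp (φ j.out⁻¹).toMonoidHom).ker := by
            have : (q.comp (φ i.out⁻¹).toMonoidHom).ker =
              (q.comp (φ j.out⁻¹).toMonoidHom).ker := hij
            rw [this]
          exact h2
        · have h3 : ∀ g : G, g * x * g⁻¹ ∉ K := by
            intro g hg
            apply hx
            have h4 := hLn.conj_mem _ (hle hg) g⁻¹
            have h5 : g⁻¹ * (g * x * g⁻¹) * g⁻¹⁻¹ = x := by group
            rwa [h5] at h4
          exact iff_of_false (h3 _) (h3 _)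
      have h2 : i.out⁻¹ * j.out ∈ G₁ := by
        rw [hmem]
        intro x
        have h3 := h1 (j.out * x * j.out⁻¹)
        have h4 : j.out⁻¹ * (j.out * x * j.out⁻¹) * j.out⁻¹⁻¹ = x := by group
        have h5 : i.out⁻¹ * (j.out * x * j.out⁻¹) * i.out⁻¹⁻¹ =
            i.out⁻¹ * j.out * x * (i.out⁻¹ * j.out)⁻¹ := by group
        rw [h4, h5] at h3
        exact h3.symm
      have h3 := QuotientGroup.eq.2 h2
      rwa [QuotientGroup.out_eq', QuotientGroup.out_eq'] at h3
  refine hC.base.finiteIndex G G₁ Subgroup.finiteIndex_of_finite_quotient ?_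
  have hLG : ∀ n, (E n : G) ∈ G₁ := by
    have h1 : ∀ n x, x ∈ K → (E n : G) * x * (E n : G)⁻¹ ∈ K := by
      intro n x hx
      obtain ⟨m, hm⟩ := E.surjective ⟨x, hle hx⟩
      have hm' : (E m : G) = x := by rw [hm]
      rw [← hm', hKm] at hx
      have h2 : (E n : G) * x * (E n : G)⁻¹ = E (n * m * n⁻¹) := by
        rw [← hm']
        push_cast [map_mul, map_inv]
        rfl
      rw [h2, hKm]
      exact (inferInstance : q.ker.Normal).conj_mem m hx n
    intro n
    rw [hmem]
    intro x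
    refine ⟨h1 n x, fun hx => ?_⟩
    have h2 := h1 n⁻¹ _ hx
    have h3 : (E n⁻¹ : G) * ((E n : G) * x * (E n : G)⁻¹) * (E n⁻¹ : G)⁻¹ = x := by
      rw [map_inv, Subgroup.coe_inv]
      group
    rwa [h3] at h2
  -- the groups inside the stabilizer
  have hL1 : L ≤ G₁ := by
    intro x hx
    obtain ⟨n, hn⟩ := E.surjective ⟨x, hx⟩
    have hn' : (E n : G) = x := by rw [hn]
    rw [← hn']
    exact hLG n
  have hLn₁ : (L.subgroupOf G₁).Normal := hLn.comap _
  have hKn₁ : (K.subgroupOf G₁).Normal := by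
    refine ⟨fun x hx g => ?_⟩
    exact (g.2 x).1 hx
  refine two_step hC q hq hK hQ (L.subgroupOf G₁)
    (E.trans (Subgroup.subgroupOfEquivOfLe hL1).symm) (K.subgroupOf G₁) ?_ ?_
  · ext x
    constructor
    · intro hx
      have hx' : (x : G) ∈ K := hx
      obtain ⟨m, hm⟩ := E.surjective ⟨x, hle hx'⟩
      have hm' : (E m : G) = x := by rw [hm]
      refine ⟨(E.trans (Subgroup.subgroupOfEquivOfLe hL1).symm) m, ⟨m, ?_, rfl⟩, ?_⟩
      · rw [← hm', hKm] at hx'
        exact hx'
      · apply Subtype.ext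
        exact hm'
    · rintro ⟨_, ⟨m, hm, rfl⟩, rfl⟩
      show (E m : G) ∈ K
      rw [hKm]
      exact hm
  · have h1 : ((QuotientGroup.mk' L).comp G₁.subtype).ker = L.subgroupOf G₁ := by
      rw [← MonoidHom.comap_ker, QuotientGroup.ker_mk']
      rfl
    refine hC.base.of_injective (G₁ ⧸ L.subgroupOf G₁) (G ⧸ L)
      (QuotientGroup.lift _ ((QuotientGroup.mk' L).comp G₁.subtype) (le_of_eq h1.symm)) ?_ hG
    rw [← MonoidHom.ker_eq_bot_iff, QuotientGroup.ker_lift, h1]
    exact QuotientGroup.map_mk'_self _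

/-- **series with large good factors** -/
theorem series (hC : ClosedE C) (n : ℕ) : ∀ (N : Type) [Group N] (A : ℕ → Subgroup N),
    A n = ⊤ → (∀ i ≤ n, (A i).FG) → GoodKer C (A 0) →
    (∀ i < n, A i ≤ A (i + 1) ∧ ∃ (Q : Type) (_ : Group Q) (q : A (i + 1) →* Q),
      Function.Surjective q ∧ q.ker = (A i).subgroupOf (A (i + 1)) ∧ Large Q ∧ GoodKer C Q) →
    GoodKer C N := by
  have key : ∀ (N : Type) [Group N] (A : ℕ → Subgroup N) (m : ℕ), (∀ i ≤ m, (A i).FG) →
      GoodKer C (A 0) →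
      (∀ i < m, A i ≤ A (i + 1) ∧ ∃ (Q : Type) (_ : Group Q) (q : A (i + 1) →* Q),
        Function.Surjective q ∧ q.ker = (A i).subgroupOf (A (i + 1)) ∧ Large Q ∧ GoodKer C Q) →
      GoodKer C (A m) := by
    intro N _ A m
    induction m with
    | zero => exact fun _ h0 _ => h0
    | succ m ih =>
      intro hfg h0 hs
      have h1 := ih (fun i hi => hfg i (by omega)) h0 (fun i hi => hs i (by omega))
      obtain ⟨hle, Q, _, q, hq, hker, hQl, hQ⟩ := hs m (by omega)
      have h2 : Group.FG (A (m + 1)) := (Group.fg_iff_subgroup_fg _).2 (hfg (m + 1) le_rfl)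
      have E : (A m).subgroupOf (A (m + 1)) ≃* A m := Subgroup.subgroupOfEquivOfLe hle
      refine step hC hQl q hq ?_ ?_ hQ
      · rw [hker]
        have h3 : Group.FG (A m) := (Group.fg_iff_subgroup_fg _).2 (hfg m (by omega))
        exact (Group.fg_iff_subgroup_fg _).1
          (Group.fg_of_surjective (f := E.symm.toMonoidHom) E.symm.surjective)
      · rw [hker]
        exact h1.equiv E.symm
  intro N _ A hn hfg h0 hs
  have h1 := key N A n hfg h0 hs
  rw [hn] at h1
  exact h1.equiv Subgroup.topEquiv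

end Pool.Agent.T2H65.FF
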