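import Mathlib

/-!
# Functionals on finitely generated modules
-/

set_option autoImplicit false

namespace Pool.Agent.T2H65.FF

open TensorProduct

/-- a finitely generated module whose annihilator is contained in the kernel of a homomorphism to a
field has a nonzero functional with values in the field -/
theorem exists_functional {A M K : Type} [CommRing A] [AddCommGroup M] [Module A M]
    [Module.Finite A M] [Field K] (φ : A →+* K)
    (h : ∀ a : A, (∀ m : M, a • m = 0) → φ a = 0) :
    ∃ f : M →+ K, (∀ a m, f (a • m) = φ a * f m) ∧ ∃ m, f m ≠ 0 := by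
  have hpr : (RingHom.ker φ).IsPrime := RingHom.ker_isPrime φ
  obtain ⟨p, hpe⟩ : ∃ p : PrimeSpectrum A, p = ⟨RingHom.ker φ, hpr⟩ := ⟨_, rfl⟩
  have hpk : p.asIdeal = RingHom.ker φ := by rw [hpe]
  have hp : p ∈ Module.support A M := by
    rw [Module.support_eq_zeroLocus, PrimeSpectrum.mem_zeroLocus]
    intro a ha
    have h1 : φ a = 0 := h a (fun m => (Module.mem_annihilator.1 ha) m)
    show a ∈ p.asIdeal
    rw [hpk]
    exact h1
  have hnt := (Module.mem_support_iff_nontrivial_residueField_tensorProduct p).1 hp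
  obtain ⟨ι, hι⟩ : ∃ ι : p.asIdeal.ResidueField →+* K,
      ∀ a, ι (algebraMap A p.asIdeal.ResidueField a) = φ a := by
    refine ⟨Ideal.ResidueField.lift p.asIdeal φ (le_of_eq hpk) ?_, fun a => ?_⟩
    · intro a ha
      show IsUnit (φ a)
      rw [isUnit_iff_ne_zero]
      intro h0
      apply ha
      show a ∈ p.asIdeal
      rw [hpk]
      exact h0
    · exact Ideal.ResidueField.lift_algebraMap _ _ _ _ _
  obtain ⟨x, hx⟩ := exists_ne (0 : p.asIdeal.ResidueField ⊗[A] M)
  have h1 : ∃ g : Module.Dual p.asIdeal.ResidueField (p.asIdeal.ResidueField ⊗[A] M), g x ≠ 0 := by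
    by_contra hc
    push Not at hc
    exact hx ((Module.forall_dual_apply_eq_zero_iff _ x).1 hc)
  obtain ⟨g, hg⟩ := h1
  have h2 : ∃ m : M, g (1 ⊗ₜ[A] m) ≠ 0 := by
    by_contra hc
    push Not at hc
    apply hg
    induction x using TensorProduct.induction_on with
    | zero => exact map_zero _
    | tmul a m =>
      have h3 : (a ⊗ₜ[A] m : p.asIdeal.ResidueField ⊗[A] M) = a • (1 ⊗ₜ[A] m) := by
        rw [TensorProduct.smul_tmul', smul_eq_mul, mul_one]
      rw [h3, map_smul, hc, smul_zero]
    | add y z hy hz =>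
      rw [map_add]
      have hy' : g y = 0 := by
        by_contra h5
        exact h5 (hy (fun h0 => h5 (by rw [h0, map_zero])) h5)
      have hz' : g z = 0 := by
        by_contra h5
        exact h5 (hz (fun h0 => h5 (by rw [h0, map_zero])) h5)
      rw [hy', hz', add_zero]
  obtain ⟨m, hm⟩ := h2
  refine ⟨{ toFun := fun m => ι (g (1 ⊗ₜ[A] m))
            map_zero' := by rw [TensorProduct.tmul_zero, map_zero, map_zero]
            map_add' := fun m m' => by rw [TensorProduct.tmul_add, map_add, map_add] }, ?_, m, ?_⟩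
  · intro a m
    show ι (g (1 ⊗ₜ[A] (a • m))) = φ a * ι (g (1 ⊗ₜ[A] m))
    have h3 : (1 ⊗ₜ[A] (a • m) : p.asIdeal.ResidueField ⊗[A] M) =
        (algebraMap A p.asIdeal.ResidueField a) • (1 ⊗ₜ[A] m) := by
      rw [TensorProduct.tmul_smul, algebraMap_smul]
    rw [h3, map_smul, smul_eq_mul, map_mul, hι]
  · show ι (g (1 ⊗ₜ[A] m)) ≠ 0
    exact (map_ne_zero_iff ι ι.injective).2 hm

end Pool.Agent.T2H65.FF
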